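import Mathlib

set_option autoImplicit false
set_option linter.all false

/-! Reduced group C*-algebras and isomorphisms of topological groups. -/

namespace Pool.Agent.H516R3.BM

open MeasureTheory Measure Filter
open scoped NNReal ENNReal

noncomputable section

section defs

variable {G : Type} [Group G] [MeasurableSpace G]

/-- `T` is the operator of left convolution by an integrable function `f` on `L²(G, μ)`, that is
`(T ξ)(x) = ∫ f(y) ξ(y⁻¹ x) dμ(y)`. -/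
def IsConv (μ : Measure G) (T : Lp ℂ 2 μ →L[ℂ] Lp ℂ 2 μ) : Prop :=
  ∃ f : G → ℂ, Integrable f μ ∧
    ∀ ξ : Lp ℂ 2 μ, (T ξ : G → ℂ) =ᵐ[μ] fun x => ∫ y, f y * (ξ : G → ℂ) (y⁻¹ * x) ∂μ

/-- The reduced group C*-algebra: the norm closure in `B(L²(G))` of the image of `L¹(G)` under the
left regular representation. -/
def CStarRed (μ : Measure G) : NonUnitalStarSubalgebra ℂ (Lp ℂ 2 μ →L[ℂ] Lp ℂ 2 μ) :=
  (NonUnitalStarAlgebra.adjoin ℂ {T | IsConv μ T}).topologicalClosure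

end defs

section transport

variable {G₁ G₂ : Type} [Group G₁] [MeasurableSpace G₁] [Group G₂] [MeasurableSpace G₂]

lemma adj_mem {μ₁ : Measure G₁} {μ₂ : Measure G₂} (U : Lp ℂ 2 μ₁ ≃ₗᵢ[ℂ] Lp ℂ 2 μ₂)
    (h : ∀ T, IsConv μ₁ T → IsConv μ₂ (U.conjStarAlgEquiv T)) :
    ∀ T ∈ CStarRed μ₁, U.conjStarAlgEquiv T ∈ CStarRed μ₂ := by
  have h1 : ∀ T ∈ NonUnitalStarAlgebra.adjoin ℂ {T | IsConv μ₁ T},
      U.conjStarAlgEquiv T ∈ NonUnitalStarAlgebra.adjoin ℂ {T | IsConv μ₂ T} := by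
    intro T hT
    induction hT using NonUnitalStarAlgebra.adjoin_induction with
    | mem x hx => exact NonUnitalStarAlgebra.subset_adjoin ℂ _ (h x hx)
    | add x y _ _ hx hy => rw [map_add]; exact add_mem hx hy
    | zero => rw [map_zero]; exact zero_mem _
    | mul x y _ _ hx hy => rw [map_mul]; exact mul_mem hx hy
    | smul c x _ hx => rw [map_smul]; exact SMulMemClass.smul_mem c hx
    | star x _ hx => rw [map_star]; exact star_mem hx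
  intro T hT
  refine map_mem_closure ?_ hT h1
  have : (⇑U.conjStarAlgEquiv : (Lp ℂ 2 μ₁ →L[ℂ] Lp ℂ 2 μ₁) → _) =
      fun x => (U : Lp ℂ 2 μ₁ →L[ℂ] Lp ℂ 2 μ₂) ∘L x ∘L (U.symm : Lp ℂ 2 μ₂ →L[ℂ] Lp ℂ 2 μ₁) := by
    funext x
    rfl
  rw [this]
  fun_prop

theorem transport {μ₁ : Measure G₁} {μ₂ : Measure G₂} (U : Lp ℂ 2 μ₁ ≃ₗᵢ[ℂ] Lp ℂ 2 μ₂)
    (h₁ : ∀ T, IsConv μ₁ T → IsConv μ₂ (U.conjStarAlgEquiv T))
    (h₂ : ∀ T, IsConv μ₂ T → IsConv μ₁ (U.symm.conjStarAlgEquiv T)) :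
    Nonempty (CStarRed μ₁ ≃⋆ₐ[ℂ] CStarRed μ₂) := by
  have k1 := adj_mem U h₁
  have k2 := adj_mem U.symm h₂
  have e1 : ∀ T, U.symm.conjStarAlgEquiv (U.conjStarAlgEquiv T) = T := by
    intro T
    ext1 ξ
    simp
  have e2 : ∀ T, U.conjStarAlgEquiv (U.symm.conjStarAlgEquiv T) = T := by
    intro T
    ext1 ξ
    simp
  exact ⟨{ toFun := fun T => ⟨U.conjStarAlgEquiv T.1, k1 T.1 T.2⟩
           invFun := fun T => ⟨U.symm.conjStarAlgEquiv T.1, k2 T.1 T.2⟩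
           left_inv := fun T => Subtype.ext (e1 T.1)
           right_inv := fun T => Subtype.ext (e2 T.1)
           map_mul' := fun S T => Subtype.ext (map_mul U.conjStarAlgEquiv S.1 T.1)
           map_add' := fun S T => Subtype.ext (map_add U.conjStarAlgEquiv S.1 T.1)
           map_star' := fun S => Subtype.ext (map_star U.conjStarAlgEquiv S.1)
           map_smul' := fun c S => Subtype.ext (map_smul U.conjStarAlgEquiv c S.1) }⟩

end transport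

section rel

variable {G₁ G₂ : Type} [Group G₁] [TopologicalSpace G₁] [MeasurableSpace G₁] [BorelSpace G₁]
  [Group G₂] [TopologicalSpace G₂] [MeasurableSpace G₂] [BorelSpace G₂]

/-- two measures correspond up to a scalar -/
structure Rel (e : G₁ ≃ₜ* G₂) (c : ℝ≥0) (μ₁ : Measure G₁) (μ₂ : Measure G₂) : Prop where
  c_ne : c ≠ 0
  map_eq : μ₁.map e = c • μ₂

variable {e : G₁ ≃ₜ* G₂} {c : ℝ≥0} {μ₁ : Measure G₁} {μ₂ : Measure G₂}

lemma meas (e : G₁ ≃ₜ* G₂) : Measurable e := e.continuous_toFun.measurable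

lemma Rel.symm (h : Rel e c μ₁ μ₂) : Rel e.symm c⁻¹ μ₂ μ₁ := by
  refine ⟨inv_ne_zero h.c_ne, ?_⟩
  have h1 : (μ₁.map e).map e.symm = μ₁ := by
    rw [Measure.map_map (meas e.symm) (meas e)]
    have : (e.symm ∘ e : G₁ → G₁) = id := by
      funext x; simp
    rw [this, Measure.map_id]
  rw [h.map_eq, Measure.map_smul] at h1
  rw [← h1, smul_smul, inv_mul_cancel₀ h.c_ne, one_smul]

lemma Rel.qmp (h : Rel e c μ₁ μ₂) : QuasiMeasurePreserving e μ₁ μ₂ := by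
  refine ⟨meas e, ?_⟩
  rw [h.map_eq]
  exact Measure.smul_absolutelyContinuous

lemma Rel.memLp (h : Rel e c μ₁ μ₂) (ξ : Lp ℂ 2 μ₂) : MemLp (fun x => ξ (e x)) 2 μ₁ := by
  have h1 : MemLp ξ 2 (μ₁.map e) := by
    rw [h.map_eq]
    exact (Lp.memLp ξ).smul_measure (c := (c : ℝ≥0∞)) ENNReal.coe_ne_top
  exact h1.comp_of_map (meas e).aemeasurable

/-- the normalising scalar -/
def kk (c : ℝ≥0) : ℂ := ((Real.sqrt c)⁻¹ : ℝ)

lemma kk_mul (hc : c ≠ 0) : kk c * kk c⁻¹ = 1 := by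
  unfold kk
  rw [← Complex.ofReal_mul]
  have h0 : (0 : ℝ) < c := by positivity
  have : (Real.sqrt c)⁻¹ * (Real.sqrt ((c⁻¹ : ℝ≥0) : ℝ))⁻¹ = 1 := by
    rw [NNReal.coe_inv, Real.sqrt_inv, inv_inv, inv_mul_cancel₀]
    exact (Real.sqrt_pos.mpr h0).ne'
  rw [this]; simp

/-- the transport map -/
def FF (h : Rel e c μ₁ μ₂) : Lp ℂ 2 μ₂ →ₗ[ℂ] Lp ℂ 2 μ₁ where
  toFun ξ := kk c • (h.memLp ξ).toLp _
  map_add' ξ η := by
    rw [← smul_add]
    congr 1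
    rw [← MemLp.toLp_add]
    refine MemLp.toLp_congr _ _ ?_
    have := h.qmp.ae (Lp.coeFn_add ξ η)
    filter_upwards [this] with x hx
    exact hx
  map_smul' a ξ := by
    rw [RingHom.id_apply, smul_comm a]
    congr 1
    rw [← MemLp.toLp_const_smul]
    refine MemLp.toLp_congr _ _ ?_
    have := h.qmp.ae (Lp.coeFn_smul a ξ)
    filter_upwards [this] with x hx
    exact hx

lemma FF_coe (h : Rel e c μ₁ μ₂) (ξ : Lp ℂ 2 μ₂) :
    (FF h ξ : G₁ → ℂ) =ᵐ[μ₁] fun x => kk c * ξ (e x) := by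
  have h1 : FF h ξ = kk c • (h.memLp ξ).toLp _ := rfl
  rw [h1]
  filter_upwards [Lp.coeFn_smul (kk c) ((h.memLp ξ).toLp _), (h.memLp ξ).coeFn_toLp] with x h2 h3
  rw [h2, Pi.smul_apply, h3]
  rfl

lemma FF_norm (h : Rel e c μ₁ μ₂) (ξ : Lp ℂ 2 μ₂) : ‖FF h ξ‖ = ‖ξ‖ := by
  have h1 : FF h ξ = kk c • (h.memLp ξ).toLp _ := rfl
  have h0 : (0 : ℝ) < c := by
    have := h.c_ne
    positivity
  rw [h1, norm_smul, Lp.norm_toLp]
  have h2 : eLpNorm (fun x => ξ (e x)) 2 μ₁ = c ^ (2 : ℝ≥0∞).toReal⁻¹ • eLpNorm ξ 2 μ₂ := by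
    have h3 := eLpNorm_map_measure (μ := μ₁) (f := e) (p := 2) (g := ξ) (by
      rw [h.map_eq]
      exact (Lp.aestronglyMeasurable ξ).smul_measure (c : ℝ≥0∞)) (meas e).aemeasurable
    rw [h.map_eq, eLpNorm_smul_measure_of_ne_zero' h.c_ne] at h3
    exact h3.symm
  rw [h2, ENNReal.smul_def, smul_eq_mul, ENNReal.toReal_mul, Lp.norm_def]
  rw [← mul_assoc]
  have h4 : ‖kk c‖ * (((c ^ (2 : ℝ≥0∞).toReal⁻¹ : ℝ≥0) : ℝ≥0∞)).toReal = 1 := by
    rw [ENNReal.coe_toReal, NNReal.coe_rpow]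
    unfold kk
    rw [Complex.norm_real, Real.norm_of_nonneg (by positivity)]
    have : (2 : ℝ≥0∞).toReal⁻¹ = 1 / 2 := by norm_num
    rw [this, ← Real.sqrt_eq_rpow, inv_mul_cancel₀]
    exact (Real.sqrt_pos.mpr h0).ne'
  rw [h4, one_mul]

lemma FF_FF (h : Rel e c μ₁ μ₂) (h' : Rel e.symm c⁻¹ μ₂ μ₁) (ξ : Lp ℂ 2 μ₂) :
    FF h' (FF h ξ) = ξ := by
  refine Lp.ext ?_
  filter_upwards [FF_coe h' (FF h ξ), h'.qmp.ae (FF_coe h ξ)] with x h1 h2
  rw [h1, h2, ← mul_assoc, mul_comm (kk c⁻¹), kk_mul h.c_ne, one_mul]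
  congr 1
  exact e.apply_symm_apply x

/-- the unitary -/
def UU (h : Rel e c μ₁ μ₂) : Lp ℂ 2 μ₁ ≃ₗᵢ[ℂ] Lp ℂ 2 μ₂ where
  toLinearEquiv := LinearEquiv.ofLinear (FF h.symm) (FF h)
    (by
      refine LinearMap.ext fun ξ => ?_
      exact FF_FF h h.symm ξ)
    (by
      refine LinearMap.ext fun ξ => ?_
      have h2 : Rel e.symm.symm (c⁻¹)⁻¹ μ₁ μ₂ := h.symm.symm
      have h3 := FF_FF h.symm h2 ξ
      have h4 : ∀ η, FF h2 η = FF h η := by
        intro η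
        refine Lp.ext ?_
        filter_upwards [FF_coe h2 η, FF_coe h η] with x h5 h6
        rw [h5, h6, inv_inv]
        rfl
      rw [h4] at h3
      exact h3)
  norm_map' := FF_norm h.symm

lemma UU_apply (h : Rel e c μ₁ μ₂) (ξ : Lp ℂ 2 μ₁) : UU h ξ = FF h.symm ξ := rfl
lemma UU_symm_apply (h : Rel e c μ₁ μ₂) (ξ : Lp ℂ 2 μ₂) : (UU h).symm ξ = FF h ξ := rfl

variable [IsTopologicalGroup G₁] [SecondCountableTopology G₁]

lemma conv_transport (h : Rel e c μ₁ μ₂) [SFinite μ₁] [IsMulLeftInvariant μ₁]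
    (T : Lp ℂ 2 μ₁ →L[ℂ] Lp ℂ 2 μ₁)
    (V : Lp ℂ 2 μ₁ → Lp ℂ 2 μ₂) (W : Lp ℂ 2 μ₂ → Lp ℂ 2 μ₁)
    (hV : ∀ ξ, (V ξ : G₂ → ℂ) =ᵐ[μ₂] fun x => kk c⁻¹ * ξ (e.symm x))
    (hW : ∀ ξ, (W ξ : G₁ → ℂ) =ᵐ[μ₁] fun x => kk c * ξ (e x))
    (hT : IsConv μ₁ T) :
    ∃ f : G₂ → ℂ, Integrable f μ₂ ∧ ∀ ξ : Lp ℂ 2 μ₂,
      (V (T (W ξ)) : G₂ → ℂ) =ᵐ[μ₂] fun x => ∫ y, f y * (ξ : G₂ → ℂ) (y⁻¹ * x) ∂μ₂ := by
  obtain ⟨f, hf, hT⟩ := hT
  refine ⟨fun y => (c : ℂ) * f (e.symm y), ?_, fun ξ => ?_⟩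
  · refine Integrable.const_mul ?_ _
    have h1 : Integrable f (μ₂.map e.symm) := by
      rw [h.symm.map_eq]
      exact hf.smul_measure (c := ((c⁻¹ : ℝ≥0) : ℝ≥0∞)) ENNReal.coe_ne_top
    exact h1.comp_measurable (meas e.symm)
  · filter_upwards [hV (T (W ξ)), h.symm.qmp.ae (hT (W ξ))] with z h1 h2
    rw [h1, h2]
    have h3 : ∀ᵐ y ∂μ₁, (W ξ : G₁ → ℂ) (y⁻¹ * e.symm z) =
        kk c * ξ (e (y⁻¹ * e.symm z)) := by
      have q1 : QuasiMeasurePreserving (fun y : G₁ => y⁻¹ * e.symm z) μ₁ μ₁ := by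
        have q2 := (quasiMeasurePreserving_inv μ₁).comp
          (measurePreserving_mul_left μ₁ (e.symm z)⁻¹).quasiMeasurePreserving
        convert q2 using 1
        funext y
        simp
      exact q1.ae (hW ξ)
    have h4 : ∫ y, f y * (W ξ : G₁ → ℂ) (y⁻¹ * e.symm z) ∂μ₁ =
        kk c * ∫ y, f y * ξ (e (y⁻¹ * e.symm z)) ∂μ₁ := by
      rw [← integral_const_mul]
      refine integral_congr_ae ?_
      filter_upwards [h3] with y hy
      rw [hy]; ring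
    rw [h4, ← mul_assoc, mul_comm (kk c⁻¹), kk_mul h.c_ne, one_mul]
    have h5 : ∫ y, f y * ξ (e (y⁻¹ * e.symm z)) ∂μ₁ =
        ∫ y, f (e.symm y) * ξ (y⁻¹ * z) ∂(μ₁.map e) := by
      have hm : MeasurableEmbedding e := e.toHomeomorph.measurableEmbedding
      rw [hm.integral_map]
      refine integral_congr_ae (Eventually.of_forall fun y => ?_)
      change f y * ξ (e (y⁻¹ * e.symm z)) = f (e.symm (e y)) * ξ ((e y)⁻¹ * z)
      rw [map_mul, map_inv, e.symm_apply_apply, e.apply_symm_apply]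
    rw [h5, h.map_eq, integral_smul_nnreal_measure]
    rw [NNReal.smul_def, Complex.real_smul, ← integral_const_mul]
    refine integral_congr_ae (Eventually.of_forall fun y => ?_)
    change (c : ℂ) * (f (e.symm y) * ξ (y⁻¹ * z)) = (c : ℂ) * f (e.symm y) * ξ (y⁻¹ * z)
    ring

end rel

section main

variable {G₁ G₂ : Type} [Group G₁] [TopologicalSpace G₁] [MeasurableSpace G₁] [BorelSpace G₁]
  [IsTopologicalGroup G₁] [SecondCountableTopology G₁] [LocallyCompactSpace G₁]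
  [Group G₂] [TopologicalSpace G₂] [MeasurableSpace G₂] [BorelSpace G₂]
  [IsTopologicalGroup G₂] [SecondCountableTopology G₂] [LocallyCompactSpace G₂]

/-- isomorphic topological groups have isomorphic reduced C*-algebras -/
theorem red_iso (e : G₁ ≃ₜ* G₂) (μ₁ : Measure G₁) (μ₂ : Measure G₂) [μ₁.IsHaarMeasure]
    [μ₂.IsHaarMeasure] : Nonempty (CStarRed μ₁ ≃⋆ₐ[ℂ] CStarRed μ₂) := by
  haveI : (μ₁.map e).IsHaarMeasure :=
    e.toMulEquiv.isHaarMeasure_map μ₁ e.continuous_toFun e.continuous_invFun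
  have hr : Rel e (haarScalarFactor (μ₁.map e) μ₂) μ₁ μ₂ :=
    ⟨(haarScalarFactor_pos_of_isHaarMeasure _ _).ne', isMulLeftInvariant_eq_smul _ _⟩
  refine transport (UU hr) (fun T hT => ?_) (fun T hT => ?_)
  · obtain ⟨f, hf, h⟩ := conv_transport hr T (UU hr) (UU hr).symm (fun ξ => FF_coe hr.symm ξ)
      (fun ξ => FF_coe hr ξ) hT
    exact ⟨f, hf, h⟩
  · obtain ⟨f, hf, h⟩ := conv_transport hr.symm T (UU hr).symm (UU hr) (fun ξ => by
      filter_upwards [FF_coe hr ξ] with x hx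
      rw [inv_inv]
      exact hx)
      (fun ξ => FF_coe hr.symm ξ) hT
    exact ⟨f, hf, h⟩

end main

end

end Pool.Agent.H516R3.BM
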