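import Pool.Agent.H516R3.BM.Tree

set_option autoImplicit false
set_option linter.all false

/-! Coloured trees from neighbour maps and a height function. -/

namespace Pool.Agent.H516R3.BM

open Equiv

/-- neighbour maps with a height function -/
structure HT (d : ℕ) where
  V : Type
  n : Fin d → V → V
  h : V → ℕ
  root : V
  inv : ∀ i v, n i (n i v) = v
  rootUp : ∀ i, h root < h (n i root)
  down : ∀ v, v ≠ root → ∃ i, h (n i v) < h v
  uniq : ∀ v i j, i ≠ j → h (n i v) < h v → h v < h (n j v)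

namespace HT

variable {d : ℕ} (X : HT d)

lemma ne_height (i : Fin d) (v : X.V) : X.h (X.n i v) ≠ X.h v := by
  by_cases hv : v = X.root
  · subst hv; exact (X.rootUp i).ne'
  · obtain ⟨j, hj⟩ := X.down v hv
    by_cases hij : j = i
    · subst hij; exact hj.ne
    · exact (X.uniq v j i hij hj).ne'

lemma inj_aux {i j : Fin d} {v : X.V} (h : X.n i v = X.n j v) : i = j := by
  by_contra hij
  rcases lt_or_gt_of_ne (X.ne_height i v) with h1 | h1
  · have := X.uniq v i j hij h1
    rw [← h] at this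
    exact absurd h1 (not_lt.mpr this.le)
  · have h2 : X.h (X.n i (X.n i v)) < X.h (X.n i v) := by rw [X.inv]; exact h1
    have h3 := X.uniq (X.n i v) i j hij h2
    rw [h, X.inv] at h3
    rw [h] at h1
    exact absurd h1 (not_lt.mpr h3.le)

/-- the graph -/
def G : SimpleGraph X.V where
  Adj v w := ∃ i, X.n i v = w
  symm := ⟨by
    rintro v w ⟨i, rfl⟩
    exact ⟨i, X.inv i v⟩⟩
  loopless := ⟨by
    rintro v ⟨i, hi⟩
    exact X.ne_height i v (by rw [hi])⟩

lemma adj_iff {v w : X.V} : X.G.Adj v w ↔ ∃ i, X.n i v = w := Iff.rfl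

lemma adj_n (i : Fin d) (v : X.V) : X.G.Adj v (X.n i v) := ⟨i, rfl⟩

lemma reach (k : ℕ) : ∀ v : X.V, X.h v ≤ k → X.G.Reachable v X.root := by
  induction k with
  | zero =>
    intro v hv
    by_cases h : v = X.root
    · rw [h]
    · obtain ⟨i, hi⟩ := X.down v h
      omega
  | succ k ih =>
    intro v hv
    by_cases h : v = X.root
    · rw [h]
    · obtain ⟨i, hi⟩ := X.down v h
      exact (X.adj_n i v).reachable.trans (ih _ (by omega))

lemma isTree : X.G.IsTree := by
  constructor
  · haveI : Nonempty X.V := ⟨X.root⟩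
    exact ⟨fun v w => (X.reach _ v le_rfl).trans (X.reach _ w le_rfl).symm⟩
  · intro v c hc
    -- a vertex of maximal height
    classical
    obtain ⟨u, hu, hmax⟩ := c.support.toFinset.exists_max_image X.h
      ⟨v, by simp⟩
    rw [List.mem_toFinset] at hu
    let c' := c.rotate u hu
    have hc' : c'.IsCycle := hc.rotate hu
    have hmem : ∀ w ∈ c'.support, X.h w ≤ X.h u := by
      intro w hw
      apply hmax
      rw [List.mem_toFinset]
      rwa [SimpleGraph.Walk.mem_support_rotate_iff] at hw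
    have h1 : X.G.Adj u c'.snd := c'.adj_snd hc'.not_nil
    have h2 : X.G.Adj c'.penultimate u := c'.adj_penultimate hc'.not_nil
    obtain ⟨i, hi⟩ := h1
    obtain ⟨j, hj⟩ := h2.symm
    have hi' : X.h (X.n i u) < X.h u := by
      refine lt_of_le_of_ne ?_ (X.ne_height i u)
      rw [hi]
      exact hmem _ (c'.getVert_mem_support 1)
    have hj' : X.h (X.n j u) < X.h u := by
      refine lt_of_le_of_ne ?_ (X.ne_height j u)
      rw [hj]
      exact hmem _ (c'.getVert_mem_support _)
    by_cases hij : i = j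
    · apply hc'.snd_ne_penultimate
      rw [← hi, ← hj, hij]
    · have := X.uniq u i j hij hi'
      omega

lemma sym2_inj {i j : Fin d} {v w : X.V} (h : s(v, X.n i v) = s(w, X.n j w)) : i = j := by
  rw [Sym2.eq_iff] at h
  rcases h with ⟨h1, h2⟩ | ⟨h1, h2⟩
  · rw [← h1] at h2
    exact X.inj_aux h2
  · apply X.inj_aux (v := v)
    rw [h2, h1, X.inv]

open Classical in
/-- the colour of an edge -/
noncomputable def col [NeZero d] (e : Sym2 X.V) : Fin d :=
  if h : ∃ i : Fin d, ∃ v, e = s(v, X.n i v) then h.choose else 0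

lemma col_n [NeZero d] (i : Fin d) (v : X.V) : X.col s(v, X.n i v) = i := by
  have h : ∃ j : Fin d, ∃ w, s(v, X.n i v) = s(w, X.n j w) := ⟨i, v, rfl⟩
  unfold col
  rw [dif_pos h]
  obtain ⟨w, hw⟩ := h.choose_spec
  exact (X.sym2_inj hw).symm

/-- the coloured tree -/
noncomputable def tree [NeZero d] : ColouredTree d where
  V := X.V
  T := X.G
  isTree := X.isTree
  c := X.col
  legal := by
    intro v
    refine ⟨fun _ _ => Set.mem_univ _, ?_, ?_⟩
    · rintro e he f hf hef
      induction e using Sym2.ind with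
      | _ a b =>
      induction f using Sym2.ind with
      | _ a' b' =>
      have key : ∀ a b : X.V, s(a, b) ∈ X.G.incidenceSet v → ∃ i, s(a, b) = s(v, X.n i v) := by
        intro a b hab
        obtain ⟨h1, h2⟩ := hab
        rw [Sym2.mem_iff] at h2
        rw [SimpleGraph.mem_edgeSet] at h1
        rcases h2 with rfl | rfl
        · obtain ⟨i, rfl⟩ := h1
          exact ⟨i, rfl⟩
        · obtain ⟨i, rfl⟩ := h1.symm
          exact ⟨i, Sym2.eq_swap⟩
      obtain ⟨i, hi⟩ := key a b he
      obtain ⟨j, hj⟩ := key a' b' hf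
      rw [hi, hj] at hef ⊢
      rw [col_n, col_n] at hef
      rw [hef]
    · intro i _
      exact ⟨s(v, X.n i v), (SimpleGraph.mem_incidenceSet _ _ _).mpr ⟨i, rfl⟩, X.col_n i v⟩

/-- membership in the Burger-Mozes group in terms of the neighbour maps -/
lemma mem_BM [NeZero d] {F : Subgroup (Perm (Fin d))} {g : Perm X.V} :
    (g : Perm X.tree.V) ∈ BM X.tree F ↔ ∀ v, ∃ σ ∈ F, ∀ i, g (X.n i v) = X.n (σ i) (g v) := by
  constructor
  · rintro ⟨h1, h2⟩ v
    obtain ⟨σ, hσ, hσ'⟩ := h2 v
    refine ⟨σ, hσ, fun i => ?_⟩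
    have h3 : X.G.Adj (g v) (g (X.n i v)) := (h1 v (X.n i v)).mpr (X.adj_n i v)
    obtain ⟨j, hj⟩ := h3
    have h4 : X.col s(g v, g (X.n i v)) = σ (X.col s(v, X.n i v)) := hσ' _ (X.adj_n i v)
    rw [← hj, col_n, col_n] at h4
    rw [← hj, h4]
  · intro h
    refine ⟨fun v w => ?_, fun v => ?_⟩
    · obtain ⟨σ, hσ, hσ'⟩ := h v
      constructor
      · rintro ⟨j, hj⟩
        refine ⟨σ⁻¹ j, ?_⟩
        apply g.injective
        rw [hσ', ap_inv]
        exact hj
      · rintro ⟨i, rfl⟩
        exact ⟨σ i, (hσ' i).symm⟩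
    · obtain ⟨σ, hσ, hσ'⟩ := h v
      refine ⟨σ, hσ, ?_⟩
      rintro w ⟨i, rfl⟩
      change X.col s(g v, g (X.n i v)) = σ (X.col s(v, X.n i v))
      rw [hσ', col_n, col_n]

end HT

end Pool.Agent.H516R3.BM
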