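import Pool.Agent.H516R3.BM.Model

set_option autoImplicit false
set_option linter.all false

/-! The isomorphism between the two Burger-Mozes groups. -/

namespace Pool.Agent.H516R3.BM

open Equiv

lemma mem3 {g : Perm (Red4 × Bool)} :
    (g : Perm X3.V) ∈ BM X3 F3 ↔ ∀ v, ∃ σ ∈ F3, ∀ i, g (n3 i v) = n3 (σ i) (g v) :=
  H3.mem_BM

lemma mem4 {g : Perm Red4} :
    (g : Perm X4.V) ∈ BM X4 F4 ↔ ∀ v, ∃ σ ∈ F4, ∀ i, g (n4 i v) = n4 (σ i) (g v) :=
  H4.mem_BM

lemma n4_inj {i j : Fin 4} {w : Red4} (h : n4 i w = n4 j w) : i = j := H4.inj_aux h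

/-- the action on vertices of degree three -/
def pr3 (g : BM X3 F3) : Perm (Red4 × Bool) := g.1
/-- the action on vertices of degree four -/
def pr4 (g : BM X4 F4) : Perm Red4 := g.1

/-- vertex part -/
def bar (g : BM X3 F3) (w : Red4) : Red4 := (pr3 g (w, false)).1
/-- flip part -/
def tt (g : BM X3 F3) (w : Red4) : Bool := (pr3 g (w, false)).2

lemma pr3_apply (g : BM X3 F3) (w : Red4) (s : Bool) :
    pr3 g (w, s) = (bar g w, xor s (tt g w)) := by
  cases s with
  | false => simp [bar, tt]
  | true =>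
    obtain ⟨σ, hσ, h⟩ := mem3.mp g.2 (w, false)
    have h2 := h 2
    rw [n3_two, show σ 2 = 2 from hσ] at h2
    have h3 : pr3 g (w, true) = n3 2 (pr3 g (w, false)) := h2
    rw [h3]
    change n3 2 (bar g w, tt g w) = _
    rw [n3_two]
    simp

lemma exists_loc (g : BM X3 F3) (w : Red4) : ∃ σ ∈ F4, (∀ k, bar g (n4 k w) = n4 (σ k) (bar g w)) ∧
    ∀ k, cls (σ k) = xor (cls k) (tt g w) := by
  have h0 : ∀ s : Bool, ∃ y : Bool → Bool, Function.Injective y ∧
      ∀ x, bar g (n4 (mk4 x s) w) = n4 (mk4 (y x) (xor s (tt g w))) (bar g w) := by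
    intro s
    obtain ⟨σ, hσ, h⟩ := mem3.mp g.2 (w, s)
    have hσ2 : σ 2 = 2 := hσ
    have h1 : ∀ x, ∃ y, σ (c3 x) = c3 y := by
      intro x
      rcases fin3_cases (σ (c3 x)) with h | h
      · exact h
      · rw [← hσ2] at h
        have := σ.injective h
        exfalso
        revert this
        cases x <;> decide
    choose y hy using h1
    refine ⟨y, ?_, ?_⟩
    · intro a b hab
      have h2 : σ (c3 a) = σ (c3 b) := by rw [hy, hy, hab]
      have h3 := σ.injective h2
      revert h3
      cases a <;> cases b <;> decide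
    · intro x
      have h2 : pr3 g (n3 (c3 x) (w, s)) = n3 (σ (c3 x)) (pr3 g (w, s)) := h (c3 x)
      rw [hy, n3_c3, pr3_apply, pr3_apply, n3_c3] at h2
      exact congrArg Prod.fst h2
  choose y hy1 hy2 using h0
  let f : Fin 4 → Fin 4 := fun k => mk4 (y (cls k) (ltr k)) (xor (cls k) (tt g w))
  have hf : Function.Injective f := by
    intro k l hkl
    have h1 : xor (cls k) (tt g w) = xor (cls l) (tt g w) := by
      have := congrArg cls hkl
      simpa only [f, cls_mk4] using this
    have h2 : cls k = cls l := by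
      revert h1
      cases cls k <;> cases cls l <;> cases tt g w <;> simp
    have h3 : y (cls k) (ltr k) = y (cls l) (ltr l) := by
      have := congrArg ltr hkl
      simpa only [f, ltr_mk4] using this
    rw [h2] at h3
    have h4 := hy1 _ h3
    rw [← mk4_ltr_cls k, ← mk4_ltr_cls l, h2, h4]
  have hcls : ∀ k, cls (f k) = xor (cls k) (tt g w) := fun k => cls_mk4 _ _
  refine ⟨Equiv.ofBijective f (Finite.injective_iff_bijective.mp hf), ?_, ?_, hcls⟩
  · intro i j
    change cls (f i) = cls (f j) ↔ _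
    rw [hcls, hcls]
    cases cls i <;> cases cls j <;> cases tt g w <;> simp
  · intro k
    have := hy2 (cls k) (ltr k)
    rw [mk4_ltr_cls] at this
    exact this

lemma bar_mul (g g' : BM X3 F3) (w : Red4) : bar (g * g') w = bar g (bar g' w) := by
  have h : pr3 (g * g') (w, false) = pr3 g (pr3 g' (w, false)) := rfl
  unfold bar
  rw [h]
  rw [pr3_apply g' w false, pr3_apply]
  rfl

lemma bar_one (w : Red4) : bar 1 w = w := rfl

/-- the map to the group of the tree of degree four -/
noncomputable def Phi (g : BM X3 F3) : BM X4 F4 :=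
  ⟨(⟨bar g, bar g⁻¹, fun w => by rw [← bar_mul, inv_mul_cancel, bar_one],
    fun w => by rw [← bar_mul, mul_inv_cancel, bar_one]⟩ : Perm Red4), mem4.mpr (by
      intro w
      obtain ⟨σ, hσ, h, _⟩ := exists_loc g w
      exact ⟨σ, hσ, h⟩)⟩

lemma pr4_Phi (g : BM X3 F3) (w : Red4) : pr4 (Phi g) w = bar g w := rfl

/-- local action -/
noncomputable def loc (h : BM X4 F4) (w : Red4) : Perm (Fin 4) := (mem4.mp h.2 w).choose

lemma loc_mem (h : BM X4 F4) (w : Red4) : loc h w ∈ F4 := (mem4.mp h.2 w).choose_spec.1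

lemma loc_spec (h : BM X4 F4) (w : Red4) (k : Fin 4) :
    pr4 h (n4 k w) = n4 (loc h w k) (pr4 h w) := (mem4.mp h.2 w).choose_spec.2 k

/-- flip part of the local action -/
noncomputable def t4 (h : BM X4 F4) (w : Red4) : Bool := cls (loc h w 0)

lemma cls_loc (h : BM X4 F4) (w : Red4) (k : Fin 4) :
    cls (loc h w k) = xor (cls k) (t4 h w) := by
  have h1 := loc_mem h w k 0
  have h2 : cls 0 = false := by decide
  rw [h2] at h1
  unfold t4
  cases hk : cls k with
  | false =>
    rw [h1.mpr hk]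
    simp
  | true =>
    rw [hk] at h1
    have h3 : ¬ (cls (loc h w k) = cls (loc h w 0)) := fun e => by simpa using h1.mp e
    revert h3
    cases cls (loc h w k) <;> cases cls (loc h w 0) <;> simp

lemma loc_nbr (h : BM X4 F4) (w : Red4) (k : Fin 4) : loc h (n4 k w) k = loc h w k := by
  have h1 := loc_spec h (n4 k w) k
  rw [n4_n4, loc_spec h w k] at h1
  have h2 : n4 (loc h w k) (n4 (loc h w k) (pr4 h w)) = pr4 h w := n4_n4 _ _
  exact (n4_inj (h2.trans h1)).symm

lemma t4_nbr (h : BM X4 F4) (w : Red4) (k : Fin 4) : t4 h (n4 k w) = t4 h w := by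
  have h1 := cls_loc h (n4 k w) k
  have h2 := cls_loc h w k
  rw [loc_nbr, h2] at h1
  revert h1
  cases cls k <;> cases t4 h w <;> cases t4 h (n4 k w) <;> simp

/-- the map back -/
noncomputable def Psi (h : BM X4 F4) : BM X3 F3 :=
  ⟨(⟨fun v => (pr4 h v.1, xor v.2 (t4 h v.1)),
      fun v => ((pr4 h).symm v.1, xor v.2 (t4 h ((pr4 h).symm v.1))),
      fun v => by simp, fun v => by simp⟩ : Perm (Red4 × Bool)), mem3.mpr (by
    rintro ⟨w, s⟩
    let y : Bool → Bool := fun x => ltr (loc h w (mk4 x s))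
    have hy : y true = !(y false) := by
      by_contra hcon
      have h1 : y true = y false := by
        revert hcon; cases y true <;> cases y false <;> simp
      have h2 : loc h w (mk4 true s) = loc h w (mk4 false s) := by
        rw [← mk4_ltr_cls (loc h w (mk4 true s)), ← mk4_ltr_cls (loc h w (mk4 false s)),
          cls_loc, cls_loc, cls_mk4, cls_mk4]
        exact congrArg (fun z => mk4 z (xor s (t4 h w))) h1
      have h3 := (loc h w).injective h2
      have h4 := congrArg ltr h3
      rw [ltr_mk4, ltr_mk4] at h4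
      exact absurd h4 (by simp)
    let σ : Perm (Fin 3) := if y false = false then 1 else swap 0 1
    have hσ2 : σ 2 = 2 := by
      simp only [σ]
      split_ifs
      · rfl
      · decide
    have hσ : ∀ x, σ (c3 x) = c3 (y x) := by
      intro x
      simp only [σ]
      cases hyf : y false with
      | false =>
        rw [hyf] at hy
        cases x with
        | false => rw [if_pos rfl, hyf]; rfl
        | true => rw [if_pos rfl, hy]; rfl
      | true =>
        rw [hyf] at hy
        cases x with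
        | false => rw [if_neg (by simp), hyf]; decide
        | true => rw [if_neg (by simp), hy]; decide
    refine ⟨σ, hσ2, fun i => ?_⟩
    rcases fin3_cases i with ⟨x, rfl⟩ | rfl
    · rw [hσ, n3_c3]
      change (pr4 h (n4 (mk4 x s) w), xor s (t4 h (n4 (mk4 x s) w))) =
        n3 (c3 (y x)) (pr4 h w, xor s (t4 h w))
      rw [n3_c3, t4_nbr, loc_spec]
      have : mk4 (y x) (xor s (t4 h w)) = loc h w (mk4 x s) := by
        apply mk4_ltr_of
        rw [cls_loc, cls_mk4]
      rw [this]
    · rw [hσ2, n3_two]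
      change (pr4 h w, xor (!s) (t4 h w)) = n3 2 (pr4 h w, xor s (t4 h w))
      rw [n3_two]
      simp)⟩

lemma pr3_Psi (h : BM X4 F4) (w : Red4) (s : Bool) :
    pr3 (Psi h) (w, s) = (pr4 h w, xor s (t4 h w)) := rfl

lemma ext3 {g g' : BM X3 F3} (h : ∀ w s, pr3 g (w, s) = pr3 g' (w, s)) : g = g' := by
  apply Subtype.ext
  apply Equiv.ext
  rintro ⟨w, s⟩
  exact h w s

lemma ext4 {g g' : BM X4 F4} (h : ∀ w, pr4 g w = pr4 g' w) : g = g' := by
  apply Subtype.ext
  apply Equiv.ext
  intro w
  exact h w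

lemma t4_Phi (g : BM X3 F3) (w : Red4) : t4 (Phi g) w = tt g w := by
  obtain ⟨σ, hσ, h1, h2⟩ := exists_loc g w
  have h3 := loc_spec (Phi g) w 0
  rw [pr4_Phi, pr4_Phi, h1] at h3
  have h4 := n4_inj h3
  unfold t4
  rw [← h4, h2]
  have : cls 0 = false := by decide
  rw [this]
  simp

/-- the isomorphism of groups -/
noncomputable def iso34 : BM X3 F3 ≃* BM X4 F4 where
  toFun := Phi
  invFun := Psi
  left_inv g := by
    apply ext3
    intro w s
    rw [pr3_Psi, t4_Phi, pr4_Phi, pr3_apply]
  right_inv h := by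
    apply ext4
    intro w
    rw [pr4_Phi]
    unfold bar
    rw [pr3_Psi]
  map_mul' g g' := by
    apply ext4
    intro w
    rw [pr4_Phi, bar_mul]
    rfl

lemma continuous_Phi : Continuous Phi := by
  refine continuous_of (X := X4) (F := F4) fun v w => ?_
  have h1 : IsOpen {g : BM X3 F3 | (g : Perm X3.V) ((v, false) : Red4 × Bool) =
      ((w, false) : Red4 × Bool)} := isOpen_ev (X := X3) _ _
  have h2 : IsOpen {g : BM X3 F3 | (g : Perm X3.V) ((v, false) : Red4 × Bool) =
      ((w, true) : Red4 × Bool)} := isOpen_ev (X := X3) _ _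
  convert h1.union h2 using 1
  ext g
  constructor
  · intro h
    have h' : (pr3 g (v, false)).1 = w := h
    cases hs : (pr3 g (v, false)).2 with
    | false => left; exact Prod.ext h' hs
    | true => right; exact Prod.ext h' hs
  · rintro (h | h)
    · exact congrArg Prod.fst h
    · exact congrArg Prod.fst h

lemma continuous_Psi : Continuous Psi := by
  refine continuous_of (X := X3) (F := F3) fun v w => ?_
  obtain ⟨v, s⟩ : Red4 × Bool := v
  rw [isOpen_iff_forall_mem_open]
  intro h₀ hh₀
  refine ⟨{h : BM X4 F4 | (h : Perm X4.V) (v : Red4) = (pr4 h₀ v : Red4)} ∩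
    {h : BM X4 F4 | (h : Perm X4.V) (n4 0 v : Red4) = (pr4 h₀ (n4 0 v) : Red4)}, ?_,
    (isOpen_ev (X := X4) _ _).inter (isOpen_ev (X := X4) _ _), rfl, rfl⟩
  rintro h ⟨h1, h2⟩
  have h1' : pr4 h v = pr4 h₀ v := h1
  have h2' : pr4 h (n4 0 v) = pr4 h₀ (n4 0 v) := h2
  have h3 : t4 h v = t4 h₀ v := by
    rw [loc_spec, loc_spec, h1'] at h2'
    unfold t4
    rw [n4_inj h2']
  have h4 : pr3 (Psi h₀) (v, s) = w := hh₀
  change pr3 (Psi h) (v, s) = w
  rw [← h4, pr3_Psi, pr3_Psi, h1', h3]

/-- the isomorphism of topological groups -/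
noncomputable def topIso34 : BM X3 F3 ≃ₜ* BM X4 F4 :=
  { iso34 with
    continuous_toFun := continuous_Phi
    continuous_invFun := continuous_Psi }

end Pool.Agent.H516R3.BM
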