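import Pool.Agent.H516R3.BM.Height

set_option autoImplicit false
set_option linter.all false

/-! The trees of degree three and four. -/

namespace Pool.Agent.H516R3.BM

open Equiv

/-- class of a letter -/
def cls (i : Fin 4) : Bool := decide (2 ≤ i.val)

/-- letter `x` of class `s` -/
def mk4 (x s : Bool) : Fin 4 := match x, s with
  | false, false => 0
  | true, false => 1
  | false, true => 2
  | true, true => 3

/-- the letter part -/
def ltr (i : Fin 4) : Bool := decide (i.val = 1 ∨ i.val = 3)

lemma cls_mk4 (x s : Bool) : cls (mk4 x s) = s := by revert x s; decide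
lemma ltr_mk4 (x s : Bool) : ltr (mk4 x s) = x := by revert x s; decide
lemma mk4_ltr_cls (i : Fin 4) : mk4 (ltr i) (cls i) = i := by revert i; decide
lemma mk4_ltr_of {i : Fin 4} {s : Bool} (h : cls i = s) : mk4 (ltr i) s = i := by
  rw [← h]; exact mk4_ltr_cls i

/-- reduced words -/
def Red4 : Type := {w : List (Fin 4) // w.IsChain (· ≠ ·)}

/-- neighbour in direction `i` -/
def nbL (i : Fin 4) : List (Fin 4) → List (Fin 4)
  | [] => [i]
  | j :: w => if i = j then w else i :: j :: w

lemma nbL_cons (i j : Fin 4) (w : List (Fin 4)) :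
    nbL i (j :: w) = if i = j then w else i :: j :: w := rfl

lemma nbL_chain (i : Fin 4) (w : List (Fin 4)) (hw : w.IsChain (· ≠ ·)) :
    (nbL i w).IsChain (· ≠ ·) := by
  cases w with
  | nil => simp [nbL]
  | cons j w =>
    rw [nbL_cons]
    split_ifs with h
    · exact hw.tail
    · exact List.IsChain.cons_cons h hw

lemma nbL_nbL (i : Fin 4) (w : List (Fin 4)) (hw : w.IsChain (· ≠ ·)) : nbL i (nbL i w) = w := by
  cases w with
  | nil => simp [nbL]
  | cons j w =>
    rw [nbL_cons]
    split_ifs with h
    · subst h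
      cases w with
      | nil => rfl
      | cons k w =>
        have : i ≠ k := by
          rw [List.isChain_cons_cons] at hw
          exact hw.1
        rw [nbL_cons, if_neg this]
    · rw [nbL_cons, if_pos rfl]

lemma nbL_length (i : Fin 4) (w : List (Fin 4)) :
    (∃ w', w = i :: w' ∧ nbL i w = w') ∨ ((∀ w', w ≠ i :: w') ∧ nbL i w = i :: w) := by
  cases w with
  | nil => right; simp [nbL]
  | cons j w =>
    by_cases h : i = j
    · subst h; left; exact ⟨w, rfl, by simp [nbL]⟩
    · right
      refine ⟨?_, by simp [nbL, h]⟩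
      intro w' hw'
      injection hw' with h1 _
      exact h h1.symm

/-- neighbour maps of the tree of degree four -/
def n4 (i : Fin 4) (w : Red4) : Red4 := ⟨nbL i w.1, nbL_chain i w.1 w.2⟩

lemma n4_cases (i : Fin 4) (w : Red4) :
    (∃ w', w.1 = i :: w' ∧ (n4 i w).1 = w') ∨
      ((∀ w', w.1 ≠ i :: w') ∧ (n4 i w).1 = i :: w.1) := nbL_length i w.1

lemma n4_n4 (i : Fin 4) (w : Red4) : n4 i (n4 i w) = w := Subtype.ext (nbL_nbL i w.1 w.2)

/-- the root -/
def root4 : Red4 := ⟨[], List.IsChain.nil⟩

/-- the tree of degree four -/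
def H4 : HT 4 where
  V := Red4
  n := n4
  h := fun w => w.1.length
  root := root4
  inv := n4_n4
  rootUp := by
    intro i
    change 0 < [i].length
    simp
  down := by
    rintro ⟨w, hw⟩ h
    cases w with
    | nil => exact absurd rfl h
    | cons j w =>
      refine ⟨j, ?_⟩
      change (nbL j (j :: w)).length < (j :: w).length
      simp [nbL]
  uniq := by
    intro v i j hij h
    rcases n4_cases i v with ⟨w', h1, h2⟩ | ⟨h1, h2⟩
    · rcases n4_cases j v with ⟨w'', h3, h4⟩ | ⟨h3, h4⟩
      · rw [h1] at h3
        injection h3 with h5 _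
        exact absurd h5 hij
      · rw [h4]; simp
    · rw [h2] at h
      simp at h

/-- height function of the tree of degree three -/
def h3 : List (Fin 4) → Bool → ℕ
  | [], s => s.toNat
  | j :: w, s => h3 w (cls j) + 1 + (if s = cls j then 0 else 1)

/-- neighbour maps of the tree of degree three -/
def n3 (i : Fin 3) (v : Red4 × Bool) : Red4 × Bool :=
  if i = 0 then (n4 (mk4 false v.2) v.1, v.2) else
    if i = 1 then (n4 (mk4 true v.2) v.1, v.2) else (v.1, !v.2)

lemma n3_zero (w : Red4) (s : Bool) : n3 0 (w, s) = (n4 (mk4 false s) w, s) := rfl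
lemma n3_one (w : Red4) (s : Bool) : n3 1 (w, s) = (n4 (mk4 true s) w, s) := rfl
lemma n3_two (w : Red4) (s : Bool) : n3 2 (w, s) = (w, !s) := rfl

/-- the colour `0` or `1` -/
def c3 (x : Bool) : Fin 3 := if x then 1 else 0

lemma n3_c3 (x : Bool) (w : Red4) (s : Bool) : n3 (c3 x) (w, s) = (n4 (mk4 x s) w, s) := by
  cases x <;> rfl

lemma fin3_cases (i : Fin 3) : (∃ x, i = c3 x) ∨ i = 2 := by
  revert i; decide

lemma h3_flip (w : List (Fin 4)) (s : Bool) : (h3 w (!s) = h3 w s + 1 ∧
    (w = [] ∧ s = false ∨ ∃ j w', w = j :: w' ∧ s = cls j)) ∨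
    (h3 w s = h3 w (!s) + 1 ∧ (w = [] ∧ s = true ∨ ∃ j w', w = j :: w' ∧ s ≠ cls j)) := by
  cases w with
  | nil => cases s <;> simp [h3]
  | cons j w =>
    by_cases h : s = cls j
    · left
      refine ⟨?_, Or.inr ⟨j, w, rfl, h⟩⟩
      subst h
      simp [h3]
    · right
      refine ⟨?_, Or.inr ⟨j, w, rfl, h⟩⟩
      have : (!s) = cls j := by
        revert h; cases s <;> cases cls j <;> simp
      simp [h3, h, this]

lemma h3_n4 (k : Fin 4) (w : Red4) : (∃ w', w.1 = k :: w' ∧ h3 w.1 (cls k) =
    h3 (n4 k w).1 (cls k) + 1) ∨ ((∀ w', w.1 ≠ k :: w') ∧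
      h3 (n4 k w).1 (cls k) = h3 w.1 (cls k) + 1) := by
  rcases n4_cases k w with ⟨w', h1, h2⟩ | ⟨h1, h2⟩
  · left
    refine ⟨w', h1, ?_⟩
    rw [h1, h2]
    simp [h3]
  · right
    refine ⟨h1, ?_⟩
    rw [h2]
    simp [h3]

/-- the tree of degree three -/
def H3 : HT 3 where
  V := Red4 × Bool
  n := n3
  h := fun v => h3 v.1.1 v.2
  root := (root4, false)
  inv := by
    rintro i ⟨w, s⟩
    rcases fin3_cases i with ⟨x, rfl⟩ | rfl
    · rw [n3_c3, n3_c3, n4_n4]
    · rw [n3_two, n3_two, Bool.not_not]
  rootUp := by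
    intro i
    rcases fin3_cases i with ⟨x, rfl⟩ | rfl
    · rw [n3_c3]
      rcases h3_n4 (mk4 x false) root4 with ⟨w', h1, h2⟩ | ⟨h1, h2⟩
      · exact absurd h1 (by simp [root4])
      · rw [cls_mk4] at h2
        simp only
        rw [h2]
        exact Nat.lt_succ_self _
    · rw [n3_two]
      simp [h3, root4]
  down := by
    rintro ⟨⟨w, hw⟩, s⟩ h
    cases w with
    | nil =>
      cases s with
      | false => exact absurd rfl h
      | true => exact ⟨2, by rw [n3_two]; simp [h3]⟩
    | cons j w =>
      by_cases hs : s = cls j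
      · refine ⟨c3 (ltr j), ?_⟩
        rw [n3_c3]
        subst hs
        rw [mk4_ltr_cls]
        rcases h3_n4 j ⟨j :: w, hw⟩ with ⟨w', h1, h2⟩ | ⟨h1, h2⟩
        · simp only at h2 ⊢
          rw [h2]
          exact Nat.lt_succ_self _
        · exact absurd rfl (h1 w)
      · refine ⟨2, ?_⟩
        rw [n3_two]
        have : (!s) = cls j := by
          revert hs; cases s <;> cases cls j <;> simp
        simp [h3, hs, this]
  uniq := by
    rintro ⟨w, s⟩ i j hij h
    simp only at h ⊢
    rcases fin3_cases i with ⟨x, rfl⟩ | rfl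
    · rw [n3_c3] at h
      rcases h3_n4 (mk4 x s) w with ⟨w', h1, h2⟩ | ⟨h1, h2⟩
      · rcases fin3_cases j with ⟨y, rfl⟩ | rfl
        · rw [n3_c3]
          rcases h3_n4 (mk4 y s) w with ⟨w'', h3', h4⟩ | ⟨h3', h4⟩
          · rw [h1] at h3'
            injection h3' with h5 _
            have := congrArg ltr h5
            rw [ltr_mk4, ltr_mk4] at this
            exact absurd (by rw [this]) hij
          · rw [cls_mk4] at h4
            simp only
            rw [h4]
            exact Nat.lt_succ_self _
        · rw [n3_two]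
          rcases h3_flip w.1 s with ⟨h3', h4⟩ | ⟨h3', h4⟩
          · simp only
            rw [h3']
            exact Nat.lt_succ_self _
          · rcases h4 with ⟨h4, _⟩ | ⟨j, w'', h4, h5⟩
            · rw [h1] at h4
              exact absurd h4 (by simp)
            · rw [h1] at h4
              injection h4 with h6 _
              rw [← h6, cls_mk4] at h5
              exact absurd rfl h5
      · rw [cls_mk4] at h2
        simp only at h
        rw [h2] at h
        omega
    · rw [n3_two] at h
      simp only at h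
      rcases h3_flip w.1 s with ⟨h3', h4⟩ | ⟨h3', h4⟩
      · rw [h3'] at h
        omega
      · rcases fin3_cases j with ⟨y, rfl⟩ | rfl
        · rw [n3_c3]
          rcases h3_n4 (mk4 y s) w with ⟨w'', h5, h6⟩ | ⟨h5, h6⟩
          · rcases h4 with ⟨h4, _⟩ | ⟨j, w''', h4, h7⟩
            · rw [h5] at h4
              exact absurd h4 (by simp)
            · rw [h5] at h4
              injection h4 with h8 _
              rw [← h8, cls_mk4] at h7
              exact absurd rfl h7
          · rw [cls_mk4] at h6
            simp only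
            rw [h6]
            exact Nat.lt_succ_self _
        · exact absurd rfl hij

/-- the tree of degree four with its colouring -/
noncomputable def X4 : ColouredTree 4 := H4.tree
/-- the tree of degree three with its colouring -/
noncomputable def X3 : ColouredTree 3 := H3.tree

/-- the permutations of the three colours which fix the colour `2` -/
def F3 : Subgroup (Perm (Fin 3)) where
  carrier := {σ | σ 2 = 2}
  one_mem' := rfl
  mul_mem' := by
    intro a b ha hb
    change a (b 2) = 2
    rw [show b 2 = 2 from hb, show a 2 = 2 from ha]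
  inv_mem' := by
    intro a ha
    change a⁻¹ 2 = 2
    rw [Perm.inv_eq_iff_eq]
    exact (show a 2 = 2 from ha).symm

/-- the permutations of the four colours which preserve the partition `{0,1} ∪ {2,3}` -/
def F4 : Subgroup (Perm (Fin 4)) where
  carrier := {σ | ∀ i j, cls (σ i) = cls (σ j) ↔ cls i = cls j}
  one_mem' := fun i j => Iff.rfl
  mul_mem' := by
    intro a b ha hb i j
    exact (ha _ _).trans (hb _ _)
  inv_mem' := by
    intro a ha i j
    rw [← ha, ap_inv, ap_inv]

end Pool.Agent.H516R3.BM
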