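import Pool.Agent.H516R3.BM.Iso

set_option autoImplicit false
set_option linter.all false

/-! The two Burger-Mozes groups are not discrete. -/

namespace Pool.Agent.H516R3.BM

open Equiv

/-- alternating words -/
def uu : ℕ → List (Fin 4)
  | 0 => [0]
  | k + 1 => 0 :: 1 :: uu k

lemma uu_head (k : ℕ) : ∃ w, uu k = 0 :: w := by
  cases k with
  | zero => exact ⟨[], rfl⟩
  | succ k => exact ⟨1 :: uu k, rfl⟩

lemma uu_chain (k : ℕ) : (uu k).IsChain (· ≠ ·) := by
  induction k with
  | zero => simp [uu]
  | succ k ih =>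
    obtain ⟨w, hw⟩ := uu_head k
    unfold uu
    rw [hw] at ih ⊢
    refine List.IsChain.cons_cons (by decide) (List.IsChain.cons_cons (by decide) ih)

lemma uu_len (k : ℕ) : k < (uu k).length := by
  induction k with
  | zero => simp [uu]
  | succ k ih =>
    simp only [uu, List.length_cons]
    omega

/-- the transposition of `2` and `3` -/
def tau : Perm (Fin 4) := swap 2 3

open Classical in
/-- local action at `x` -/
noncomputable def al (u x : List (Fin 4)) : Perm (Fin 4) := if u <:+ x then tau else 1

/-- the action on words -/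
noncomputable def act (u : List (Fin 4)) : List (Fin 4) → List (Fin 4)
  | [] => []
  | j :: x => al u x j :: act u x

lemma al_pos {u x : List (Fin 4)} (h : u <:+ x) : al u x = tau := if_pos h
lemma al_neg {u x : List (Fin 4)} (h : ¬ u <:+ x) : al u x = 1 := if_neg h

lemma act_of_not {u x : List (Fin 4)} (hu : u ≠ []) (h : ¬ u <:+ x) : act u x = x := by
  induction x with
  | nil => rfl
  | cons j x ih =>
    have h1 : ¬ u <:+ x := fun h' => h (h'.trans (List.suffix_cons j x))
    unfold act
    rw [al_neg h1, ih h1]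
    rfl

lemma act_self {k : ℕ} : act (uu k) (uu k) = uu k := by
  obtain ⟨w, hw⟩ := uu_head k
  have h1 : ¬ uu k <:+ w := by
    intro h
    have := h.length_le
    rw [hw] at this
    simp at this
  have h2 : act (uu k) (0 :: w) = al (uu k) w 0 :: act (uu k) w := rfl
  have hne : uu k ≠ [] := by rw [hw]; simp
  conv_lhs => rw [show act (uu k) (uu k) = act (uu k) (0 :: w) by rw [← hw]]
  rw [h2, al_neg h1, act_of_not hne h1, hw]
  rfl

lemma act_suffix {k : ℕ} {x : List (Fin 4)} (h : uu k <:+ x) : uu k <:+ act (uu k) x := by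
  induction x with
  | nil =>
    obtain ⟨w, hw⟩ := uu_head k
    rw [hw] at h
    simp at h
  | cons j x ih =>
    rcases List.suffix_cons_iff.mp h with h1 | h1
    · rw [← h1, act_self]
    · exact (ih h1).trans (List.suffix_cons _ _)

lemma al_act (k : ℕ) (x : List (Fin 4)) : al (uu k) (act (uu k) x) = al (uu k) x := by
  by_cases h : uu k <:+ x
  · rw [al_pos h, al_pos (act_suffix h)]
  · obtain ⟨w, hw⟩ := uu_head k
    rw [act_of_not (by rw [hw]; simp) h]

lemma al_invol (u x : List (Fin 4)) (j : Fin 4) : al u x (al u x j) = j := by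
  by_cases h : u <:+ x
  · rw [al_pos h]; revert j; decide
  · rw [al_neg h]; rfl

lemma act_act (k : ℕ) (x : List (Fin 4)) : act (uu k) (act (uu k) x) = x := by
  induction x with
  | nil => rfl
  | cons j x ih =>
    change al (uu k) (act (uu k) x) (al (uu k) x j) :: act (uu k) (act (uu k) x) = j :: x
    rw [al_act, al_invol, ih]

/-- compatibility of the local actions along an edge -/
lemma al_cons (k : ℕ) (x : List (Fin 4)) (j : Fin 4) : al (uu k) (j :: x) j = al (uu k) x j := by
  by_cases h : uu k <:+ j :: x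
  · rcases List.suffix_cons_iff.mp h with h1 | h1
    · obtain ⟨w, hw⟩ := uu_head k
      have h2 : j = 0 := by
        rw [hw] at h1
        injection h1 with h1 _
        exact h1.symm
      have h3 : ¬ uu k <:+ x := by
        intro h'
        have := h'.length_le
        rw [h1] at this
        simp at this
      rw [al_pos h, al_neg h3, h2]
      decide
    · rw [al_pos h, al_pos h1]
  · have h1 : ¬ uu k <:+ x := fun h' => h (h'.trans (List.suffix_cons j x))
    rw [al_neg h, al_neg h1]

lemma act_chain (k : ℕ) (x : List (Fin 4)) (hx : x.IsChain (· ≠ ·)) :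
    (act (uu k) x).IsChain (· ≠ ·) := by
  induction x with
  | nil => exact hx
  | cons j x ih =>
    have h1 := ih hx.tail
    cases x with
    | nil => simp [act]
    | cons i x =>
      rw [List.isChain_cons_cons] at hx
      change (al (uu k) (i :: x) j :: al (uu k) x i :: act (uu k) x).IsChain (· ≠ ·)
      refine List.IsChain.cons_cons ?_ h1
      rw [← al_cons k x i]
      intro h
      exact hx.1 ((al (uu k) (i :: x)).injective h)

/-- the action on vertices -/
noncomputable def actV (k : ℕ) : Perm Red4 where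
  toFun w := ⟨act (uu k) w.1, act_chain k w.1 w.2⟩
  invFun w := ⟨act (uu k) w.1, act_chain k w.1 w.2⟩
  left_inv w := Subtype.ext (act_act k w.1)
  right_inv w := Subtype.ext (act_act k w.1)

lemma act_nb (k : ℕ) (i : Fin 4) (x : List (Fin 4)) :
    act (uu k) (nbL i x) = nbL (al (uu k) x i) (act (uu k) x) := by
  cases x with
  | nil => simp [nbL, act]
  | cons j x =>
    change _ = nbL (al (uu k) (j :: x) i) (al (uu k) x j :: act (uu k) x)
    rw [nbL_cons, nbL_cons, ← al_cons k x j]
    by_cases h : i = j
    · subst h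
      rw [if_pos rfl, if_pos rfl]
    · rw [if_neg h, if_neg (fun e => h ((al (uu k) (j :: x)).injective e))]
      change al (uu k) (j :: x) i :: al (uu k) x j :: act (uu k) x = _
      rw [← al_cons k x j]

lemma al_mem (u x : List (Fin 4)) : al u x ∈ F4 := by
  by_cases h : u <:+ x
  · rw [al_pos h]
    change ∀ i j, cls (tau i) = cls (tau j) ↔ cls i = cls j
    decide
  · rw [al_neg h]; exact one_mem _

lemma actV_mem (k : ℕ) : (actV k : Perm X4.V) ∈ BM X4 F4 := by
  refine mem4.mpr fun v => ⟨al (uu k) v.1, al_mem _ _, fun i => ?_⟩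
  exact Subtype.ext (act_nb k i v.1)

/-- an element fixing a large ball -/
noncomputable def gk (k : ℕ) : BM X4 F4 := ⟨actV k, actV_mem k⟩

lemma gk_fix (k : ℕ) (w : Red4) (hw : w.1.length ≤ k) : pr4 (gk k) w = w := by
  apply Subtype.ext
  change act (uu k) w.1 = w.1
  obtain ⟨w', hw'⟩ := uu_head k
  refine act_of_not (by rw [hw']; simp) ?_
  intro h
  have := h.length_le
  have := uu_len k
  omega

lemma gk_ne (k : ℕ) : gk k ≠ 1 := by
  intro h
  obtain ⟨w, hw⟩ := uu_head k
  have hc : (2 :: uu k).IsChain (· ≠ ·) := by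
    have := uu_chain k
    rw [hw] at this ⊢
    exact List.IsChain.cons_cons (by decide) this
  have h1 : pr4 (gk k) ⟨2 :: uu k, hc⟩ = ⟨2 :: uu k, hc⟩ := by rw [h]; rfl
  have h2 : act (uu k) (2 :: uu k) = 2 :: uu k := congrArg Subtype.val h1
  have h3 : al (uu k) (uu k) 2 :: act (uu k) (uu k) = 2 :: uu k := h2
  rw [al_pos (List.suffix_refl _)] at h3
  injection h3 with h4 _
  revert h4
  decide

theorem not_discrete4 : ¬ DiscreteTopology (BM X4 F4) := by
  intro hd
  letI : TopologicalSpace X4.V := ⊥
  haveI : DiscreteTopology X4.V := ⟨rfl⟩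
  have h1 : Filter.Tendsto gk Filter.atTop (nhds (1 : BM X4 F4)) := by
    have hi : Topology.IsInducing (fun g : BM X4 F4 => ((g : Perm X4.V) : X4.V → X4.V)) := ⟨rfl⟩
    rw [hi.tendsto_nhds_iff, tendsto_pi_nhds]
    intro w
    refine tendsto_const_nhds.congr' ?_
    filter_upwards [Filter.eventually_ge_atTop (w : Red4).1.length] with k hk
    exact (gk_fix k w hk).symm
  have h2 : ({1} : Set (BM X4 F4)) ∈ nhds (1 : BM X4 F4) :=
    (isOpen_discrete _).mem_nhds rfl
  obtain ⟨k, hk⟩ := (h1.eventually_mem h2).exists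
  exact gk_ne k hk

theorem not_discrete3 : ¬ DiscreteTopology (BM X3 F3) := by
  intro hd
  exact not_discrete4 (topIso34.toHomeomorph.symm.isEmbedding.discreteTopology)

end Pool.Agent.H516R3.BM
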