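import Pool.Agent.H516R3.BM.Cst

set_option autoImplicit false
set_option linter.all false

/-! The statement layer: reduced group C*-algebras. -/

namespace Pool.Agent.H516R3.BM.St

open MeasureTheory Measure Filter
open scoped NNReal ENNReal

noncomputable section

section defs

variable {G : Type} [Group G] [MeasurableSpace G]

/-- The Hilbert space `L²(G, μ)`. -/
def L2 (μ : Measure G) : Type := Lp ℂ 2 μ

instance (μ : Measure G) : NormedAddCommGroup (L2 μ) := by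
  exact (inferInstance : NormedAddCommGroup (Lp ℂ 2 μ))

instance (μ : Measure G) : InnerProductSpace ℂ (L2 μ) := by
  exact (inferInstance : InnerProductSpace ℂ (Lp ℂ 2 μ))

instance (μ : Measure G) : CompleteSpace (L2 μ) := by
  exact (inferInstance : CompleteSpace (Lp ℂ 2 μ))

/-- the function (defined almost everywhere) given by an element of `L²(G, μ)` -/
def fn {μ : Measure G} (ξ : L2 μ) : G → ℂ := fun x => AEEqFun.cast (Subtype.val (show Lp ℂ 2 μ from ξ)) x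

/-- The C*-algebra of bounded operators on `L²(G, μ)`. -/
def Op (μ : Measure G) : Type := L2 μ →L[ℂ] L2 μ

instance (μ : Measure G) : CStarAlgebra (Op μ) := by
  exact (inferInstance : CStarAlgebra (L2 μ →L[ℂ] L2 μ))

/-- the value of an operator -/
def ap {μ : Measure G} (T : Op μ) : L2 μ → L2 μ :=
  fun ξ => @DFunLike.coe (L2 μ →L[ℂ] L2 μ) (L2 μ) (fun _ => L2 μ) _ T ξ

/-- `T` is the operator of left convolution by the function `f`, that is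
`(T ξ)(x) = ∫ f(y) ξ(y⁻¹ x) dμ(y)`. -/
def ConvBy (μ : Measure G) (f : G → ℂ) (T : Op μ) : Prop :=
  ∀ ξ : L2 μ, ∀ᵐ x ∂μ, fn (ap T ξ) x = ∫ y, f y * fn ξ (y⁻¹ * x) ∂μ

/-- The reduced group C*-algebra: the norm closure in `B(L²(G))` of the image of `L¹(G)` under the
left regular representation. -/
def CStarRed (μ : Measure G) : Set (Op μ) :=
  closure {T : Op μ | ∃ f : G → ℂ, Integrable f μ ∧ ConvBy μ f T}

end defs

/-- The C*-subalgebras `S₁` and `S₂` of `A₁` and `A₂` are *-isomorphic. -/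
def StarIso {A₁ A₂ : Type} [CStarAlgebra A₁] [CStarAlgebra A₂] (S₁ : Set A₁) (S₂ : Set A₂) : Prop :=
  ∃ φ : A₁ → A₂, Set.BijOn φ S₁ S₂ ∧ ∀ x ∈ S₁, ∀ y ∈ S₁,
    φ (x + y) = φ x + φ y ∧ φ (x * y) = φ x * φ y ∧ φ (star x) = star (φ x) ∧
      ∀ c : ℂ, φ (c • x) = c • φ x

section proofs

variable {G₁ G₂ : Type} [Group G₁] [MeasurableSpace G₁] [Group G₂] [MeasurableSpace G₂]

lemma convBy_iff {μ : Measure G₁} {f : G₁ → ℂ} {T : Lp ℂ 2 μ →L[ℂ] Lp ℂ 2 μ} :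
    ConvBy μ f T ↔ ∀ ξ : Lp ℂ 2 μ, (T ξ : G₁ → ℂ) =ᵐ[μ]
      fun x => ∫ y, f y * (ξ : G₁ → ℂ) (y⁻¹ * x) ∂μ := Iff.rfl

lemma exists_conv_iff {μ : Measure G₁} {T : Lp ℂ 2 μ →L[ℂ] Lp ℂ 2 μ} :
    (∃ f : G₁ → ℂ, Integrable f μ ∧ ConvBy μ f T) ↔ IsConv μ T := Iff.rfl

lemma map_cl {μ₁ : Measure G₁} {μ₂ : Measure G₂} (U : Lp ℂ 2 μ₁ ≃ₗᵢ[ℂ] Lp ℂ 2 μ₂)
    (h : ∀ T, IsConv μ₁ T → IsConv μ₂ (U.conjStarAlgEquiv T)) :
    ∀ T : Lp ℂ 2 μ₁ →L[ℂ] Lp ℂ 2 μ₁, T ∈ closure {T | IsConv μ₁ T} →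
      U.conjStarAlgEquiv T ∈ closure {T | IsConv μ₂ T} := by
  intro T hT
  refine map_mem_closure ?_ hT h
  have : (⇑U.conjStarAlgEquiv : (Lp ℂ 2 μ₁ →L[ℂ] Lp ℂ 2 μ₁) → _) =
      fun x => (U : Lp ℂ 2 μ₁ →L[ℂ] Lp ℂ 2 μ₂) ∘L x ∘L (U.symm : Lp ℂ 2 μ₂ →L[ℂ] Lp ℂ 2 μ₁) := by
    funext x
    rfl
  rw [this]
  fun_prop

theorem transport' {μ₁ : Measure G₁} {μ₂ : Measure G₂} (U : Lp ℂ 2 μ₁ ≃ₗᵢ[ℂ] Lp ℂ 2 μ₂)
    (h₁ : ∀ T, IsConv μ₁ T → IsConv μ₂ (U.conjStarAlgEquiv T))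
    (h₂ : ∀ T, IsConv μ₂ T → IsConv μ₁ (U.symm.conjStarAlgEquiv T)) :
    StarIso (CStarRed μ₁) (CStarRed μ₂) := by
  have k1 := map_cl U h₁
  have k2 := map_cl U.symm h₂
  have e1 : ∀ T, U.symm.conjStarAlgEquiv (U.conjStarAlgEquiv T) = T := by
    intro T
    ext1 ξ
    simp
  have e2 : ∀ T, U.conjStarAlgEquiv (U.symm.conjStarAlgEquiv T) = T := by
    intro T
    ext1 ξ
    simp
  refine ⟨fun T : Lp ℂ 2 μ₁ →L[ℂ] Lp ℂ 2 μ₁ => U.conjStarAlgEquiv T, ⟨k1, ?_, ?_⟩, ?_⟩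
  · intro S _ T _ h
    have h' : U.conjStarAlgEquiv S = U.conjStarAlgEquiv T := h
    exact U.conjStarAlgEquiv.injective h'
  · intro T hT
    exact ⟨U.symm.conjStarAlgEquiv T, k2 T hT, e2 T⟩
  · intro x _ y _
    exact ⟨map_add U.conjStarAlgEquiv x y, map_mul U.conjStarAlgEquiv x y,
      map_star U.conjStarAlgEquiv x, fun c => map_smul U.conjStarAlgEquiv c x⟩

end proofs

section main

variable {G₁ G₂ : Type} [Group G₁] [TopologicalSpace G₁] [MeasurableSpace G₁] [BorelSpace G₁]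
  [IsTopologicalGroup G₁] [SecondCountableTopology G₁] [LocallyCompactSpace G₁]
  [Group G₂] [TopologicalSpace G₂] [MeasurableSpace G₂] [BorelSpace G₂]
  [IsTopologicalGroup G₂] [SecondCountableTopology G₂] [LocallyCompactSpace G₂]

/-- isomorphic topological groups have isomorphic reduced C*-algebras -/
theorem red_iso' (e : G₁ ≃ₜ* G₂) (μ₁ : Measure G₁) (μ₂ : Measure G₂) [μ₁.IsHaarMeasure]
    [μ₂.IsHaarMeasure] : StarIso (CStarRed μ₁) (CStarRed μ₂) := by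
  haveI : (μ₁.map e).IsHaarMeasure :=
    e.toMulEquiv.isHaarMeasure_map μ₁ e.continuous_toFun e.continuous_invFun
  have hr : Rel e (haarScalarFactor (μ₁.map e) μ₂) μ₁ μ₂ :=
    ⟨(haarScalarFactor_pos_of_isHaarMeasure _ _).ne', isMulLeftInvariant_eq_smul _ _⟩
  refine transport' (UU hr) (fun T hT => ?_) (fun T hT => ?_)
  · obtain ⟨f, hf, h⟩ := conv_transport hr T (UU hr) (UU hr).symm (fun ξ => FF_coe hr.symm ξ)
      (fun ξ => FF_coe hr ξ) hT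
    exact ⟨f, hf, h⟩
  · obtain ⟨f, hf, h⟩ := conv_transport hr.symm T (UU hr).symm (UU hr) (fun ξ => by
      filter_upwards [FF_coe hr ξ] with x hx
      rw [inv_inv]
      exact hx)
      (fun ξ => FF_coe hr.symm ξ) hT
    exact ⟨f, hf, h⟩

end main

end

end Pool.Agent.H516R3.BM.St
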