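import Mathlib

set_option autoImplicit false
set_option linter.all false

/-! Burger-Mozes groups as topological groups. -/

namespace Pool.Agent.H516R3.BM

open Equiv

lemma ap_inv {α : Type} (g : Perm α) (x : α) : g (g⁻¹ x) = x := g.apply_symm_apply x

lemma inv_ap {α : Type} (g : Perm α) (x : α) : g⁻¹ (g x) = x := g.symm_apply_apply x

/-- A `d`-regular tree with a legal colouring `c` of its edges: at every vertex `v`, the map `c`
restricts to a bijection from the set of edges at `v` onto `{0, …, d - 1}`. -/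
structure ColouredTree (d : ℕ) where
  V : Type
  T : SimpleGraph V
  isTree : T.IsTree
  c : Sym2 V → Fin d
  legal : ∀ v : V, Set.BijOn c (T.incidenceSet v) Set.univ

variable {d : ℕ}

/-- The Burger-Mozes group `U(F)` of the coloured tree `X`: the automorphisms `g` of the tree whose
local action at every vertex `v` is a permutation `σ ∈ F` of the colours. -/
def BM (X : ColouredTree d) (F : Subgroup (Perm (Fin d))) : Subgroup (Perm X.V) where
  carrier := {g | (∀ v w, X.T.Adj (g v) (g w) ↔ X.T.Adj v w) ∧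
    ∀ v, ∃ σ ∈ F, ∀ w, X.T.Adj v w → X.c s(g v, g w) = σ (X.c s(v, w))}
  one_mem' := ⟨fun v w => Iff.rfl, fun v => ⟨1, F.one_mem, fun w _ => rfl⟩⟩
  mul_mem' := by
    rintro g h ⟨hg1, hg2⟩ ⟨hh1, hh2⟩
    refine ⟨fun v w => (hg1 _ _).trans (hh1 _ _), fun v => ?_⟩
    obtain ⟨σ, hσ, hσ'⟩ := hg2 (h v)
    obtain ⟨τ, hτ, hτ'⟩ := hh2 v
    refine ⟨σ * τ, F.mul_mem hσ hτ, fun w hw => ?_⟩
    rw [Perm.mul_apply, Perm.mul_apply, hσ' _ ((hh1 v w).mpr hw), hτ' w hw]
    rfl
  inv_mem' := by
    rintro g ⟨hg1, hg2⟩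
    have h1 : ∀ v w, X.T.Adj (g⁻¹ v) (g⁻¹ w) ↔ X.T.Adj v w := by
      intro v w
      rw [← hg1, ap_inv, ap_inv]
    refine ⟨h1, fun v => ?_⟩
    obtain ⟨σ, hσ, hσ'⟩ := hg2 (g⁻¹ v)
    refine ⟨σ⁻¹, F.inv_mem hσ, fun w hw => ?_⟩
    have := hσ' (g⁻¹ w) ((h1 v w).mpr hw)
    rw [ap_inv, ap_inv] at this
    rw [this, inv_ap]

variable {X : ColouredTree d} {F : Subgroup (Perm (Fin d))}

/-- The topology of pointwise convergence on the vertices. -/
instance : TopologicalSpace (BM X F) :=
  TopologicalSpace.induced (fun g : BM X F => ((g : Perm X.V) : X.V → X.V))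
    (@Pi.topologicalSpace X.V (fun _ => X.V) (fun _ => ⊥))

lemma isOpen_ev (v w : X.V) : IsOpen {g : BM X F | (g : Perm X.V) v = w} := by
  letI : TopologicalSpace X.V := ⊥
  haveI : DiscreteTopology X.V := ⟨rfl⟩
  have h1 : Continuous fun g : BM X F => ((g : Perm X.V) : X.V → X.V) := continuous_induced_dom
  have h2 : Continuous fun g : BM X F => (g : Perm X.V) v := (continuous_apply v).comp h1
  exact (isOpen_discrete {w}).preimage h2

lemma continuous_of {Y : Type} [TopologicalSpace Y] {f : Y → BM X F}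
    (h : ∀ v w, IsOpen {y | (f y : Perm X.V) v = w}) : Continuous f := by
  letI : TopologicalSpace X.V := ⊥
  haveI : DiscreteTopology X.V := ⟨rfl⟩
  rw [continuous_induced_rng]
  refine continuous_pi fun v => ?_
  rw [continuous_discrete_rng]
  intro w
  exact h v w

instance : IsTopologicalGroup (BM X F) where
  continuous_mul := by
    refine continuous_of fun v w => ?_
    have : {y : BM X F × BM X F | ((y.1 * y.2 : BM X F) : Perm X.V) v = w} =
        ⋃ u : X.V, {g : BM X F | (g : Perm X.V) u = w} ×ˢ {g : BM X F | (g : Perm X.V) v = u} := by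
      ext ⟨g, h⟩
      simp only [Set.mem_setOf_eq, Set.mem_iUnion, Set.mem_prod]
      constructor
      · intro hh
        exact ⟨(h : Perm X.V) v, hh, rfl⟩
      · rintro ⟨u, h1, h2⟩
        change (g : Perm X.V) ((h : Perm X.V) v) = w
        rw [h2, h1]
    rw [this]
    exact isOpen_iUnion fun u => (isOpen_ev u w).prod (isOpen_ev v u)
  continuous_inv := by
    refine continuous_of fun v w => ?_
    have : {y : BM X F | ((y⁻¹ : BM X F) : Perm X.V) v = w} =
        {g : BM X F | (g : Perm X.V) w = v} := by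
      ext g
      simp only [Set.mem_setOf_eq]
      change (g : Perm X.V)⁻¹ v = w ↔ _
      rw [Perm.inv_eq_iff_eq]
      exact eq_comm
    rw [this]
    exact isOpen_ev w v

lemma finite_nbr (X : ColouredTree d) (v : X.V) : (X.T.neighborSet v).Finite := by
  have h1 : (X.T.incidenceSet v).Finite :=
    (X.legal v).finite_iff_finite.mpr Set.finite_univ
  refine Set.Finite.of_finite_image (f := fun w => s(v, w)) (h1.subset ?_) ?_
  · rintro _ ⟨w, hw, rfl⟩
    exact (X.T.mem_incidenceSet v w).mpr hw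
  · intro a ha b hb hab
    have h2 : a = b ∨ v = b ∧ a = v := by simpa using hab
    rcases h2 with h | ⟨h, h'⟩
    · exact h
    · rw [h', ← h]

/-- balls around `v₀` -/
def ball (X : ColouredTree d) (v₀ : X.V) : ℕ → Set X.V
  | 0 => {v₀}
  | n + 1 => ball X v₀ n ∪ ⋃ x ∈ ball X v₀ n, X.T.neighborSet x

lemma ball_finite (X : ColouredTree d) (v₀ : X.V) (n : ℕ) : (ball X v₀ n).Finite := by
  induction n with
  | zero => exact Set.finite_singleton _
  | succ n ih => exact ih.union (ih.biUnion fun x _ => finite_nbr X x)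

lemma exists_ball (X : ColouredTree d) (v₀ w : X.V) : ∃ n, w ∈ ball X v₀ n := by
  obtain ⟨p⟩ := X.isTree.connected.preconnected w v₀
  have : ∀ {a b : X.V} (p : X.T.Walk a b), b = v₀ → ∃ n, a ∈ ball X v₀ n := by
    intro a b p
    induction p with
    | nil => intro h; exact ⟨0, h⟩
    | cons hadj p ih =>
      intro h
      obtain ⟨n, hn⟩ := ih h
      refine ⟨n + 1, Or.inr ?_⟩
      simp only [Set.mem_iUnion]
      exact ⟨_, hn, hadj.symm⟩
  exact this p rfl

lemma ball_map (v₀ : X.V) (g : Perm X.V) (hg : ∀ v w, X.T.Adj (g v) (g w) ↔ X.T.Adj v w)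
    (hg0 : g v₀ = v₀) (n : ℕ) : ∀ w ∈ ball X v₀ n, g w ∈ ball X v₀ n := by
  induction n with
  | zero =>
    intro w hw
    have : w = v₀ := hw
    rw [this, hg0]
    rfl
  | succ n ih =>
    intro w hw
    rcases hw with hw | hw
    · exact Or.inl (ih w hw)
    · simp only [Set.mem_iUnion] at hw
      obtain ⟨x, hx, hxw⟩ := hw
      refine Or.inr ?_
      simp only [Set.mem_iUnion]
      exact ⟨g x, ih x hx, (hg x w).mpr hxw⟩

lemma isCompact_stab (v₀ : X.V) : IsCompact {g : BM X F | (g : Perm X.V) v₀ = v₀} := by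
  letI : TopologicalSpace X.V := ⊥
  haveI : DiscreteTopology X.V := ⟨rfl⟩
  let ι : BM X F → (X.V → X.V) × (X.V → X.V) := fun g => (⇑(g : Perm X.V), ⇑((g : Perm X.V)⁻¹))
  have hι : Topology.IsInducing ι := by
    constructor
    apply le_antisymm
    · rw [← continuous_iff_le_induced]
      refine Continuous.prodMk continuous_induced_dom ?_
      have h1 : Continuous fun g : BM X F => ((g : Perm X.V) : X.V → X.V) := continuous_induced_dom
      exact h1.comp continuous_inv
    · change TopologicalSpace.induced ι inferInstance ≤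
        TopologicalSpace.induced (fun g : BM X F => ((g : Perm X.V) : X.V → X.V)) _
      have e : (fun g : BM X F => ((g : Perm X.V) : X.V → X.V)) = Prod.fst ∘ ι := rfl
      rw [e, ← induced_compose]
      exact induced_mono (continuous_iff_le_induced.mp continuous_fst)
  rw [hι.isCompact_iff]
  choose N hN using exists_ball X v₀
  let C : Set ((X.V → X.V) × (X.V → X.V)) :=
    (Set.univ.pi fun w => ball X v₀ (N w)) ×ˢ (Set.univ.pi fun w => ball X v₀ (N w))
  have hC : IsCompact C :=
    (isCompact_univ_pi fun w => (ball_finite X v₀ (N w)).isCompact).prod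
      (isCompact_univ_pi fun w => (ball_finite X v₀ (N w)).isCompact)
  refine hC.of_isClosed_subset ?_ ?_
  · have himg : ι '' {g : BM X F | (g : Perm X.V) v₀ = v₀} =
        {p | (∀ v, p.1 (p.2 v) = v) ∧ (∀ v, p.2 (p.1 v) = v) ∧ p.1 v₀ = v₀ ∧
          (∀ v w, X.T.Adj (p.1 v) (p.1 w) ↔ X.T.Adj v w) ∧
          ∀ v, ∃ σ ∈ F, ∀ w, X.T.Adj v w → X.c s(p.1 v, p.1 w) = σ (X.c s(v, w))} := by
      ext p
      constructor
      · rintro ⟨g, hg, rfl⟩
        exact ⟨fun v => ap_inv _ _, fun v => inv_ap _ _, hg,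
          g.2.1, g.2.2⟩
      · rintro ⟨h1, h2, h3, h4, h5⟩
        exact ⟨⟨⟨p.1, p.2, h2, h1⟩, h4, h5⟩, h3, rfl⟩
    rw [himg]
    have hc1 : ∀ v, Continuous fun p : (X.V → X.V) × (X.V → X.V) => p.1 v := fun v =>
      (continuous_apply v).comp continuous_fst
    have hc2 : ∀ v, Continuous fun p : (X.V → X.V) × (X.V → X.V) => p.2 v := fun v =>
      (continuous_apply v).comp continuous_snd
    have hev : Continuous fun q : (X.V → X.V) × X.V => q.1 q.2 := by
      rw [continuous_discrete_rng]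
      intro w
      have : (fun q : (X.V → X.V) × X.V => q.1 q.2) ⁻¹' {w} =
          ⋃ u : X.V, {f : X.V → X.V | f u = w} ×ˢ {u} := by
        ext ⟨f, u⟩
        simp
      rw [this]
      refine isOpen_iUnion fun u => IsOpen.prod ?_ (isOpen_discrete _)
      have h0 : Continuous fun f : X.V → X.V => f u := continuous_apply u
      exact (isOpen_discrete ({w} : Set X.V)).preimage h0
    have s1 : IsClosed {p : (X.V → X.V) × (X.V → X.V) | ∀ v, p.1 (p.2 v) = v} := by
      rw [Set.setOf_forall]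
      exact isClosed_iInter fun v =>
        isClosed_eq (hev.comp (continuous_fst.prodMk (hc2 v))) continuous_const
    have s2 : IsClosed {p : (X.V → X.V) × (X.V → X.V) | ∀ v, p.2 (p.1 v) = v} := by
      rw [Set.setOf_forall]
      exact isClosed_iInter fun v =>
        isClosed_eq (hev.comp (continuous_snd.prodMk (hc1 v))) continuous_const
    have s3 : IsClosed {p : (X.V → X.V) × (X.V → X.V) | p.1 v₀ = v₀} :=
      isClosed_eq (hc1 v₀) continuous_const
    have s4 : IsClosed {p : (X.V → X.V) × (X.V → X.V) |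
        ∀ v w, X.T.Adj (p.1 v) (p.1 w) ↔ X.T.Adj v w} := by
      rw [Set.setOf_forall]
      refine isClosed_iInter fun v => ?_
      rw [Set.setOf_forall]
      refine isClosed_iInter fun w => ?_
      exact (isClosed_discrete {q : X.V × X.V | X.T.Adj q.1 q.2 ↔ X.T.Adj v w}).preimage
        ((hc1 v).prodMk (hc1 w))
    have s5 : IsClosed {p : (X.V → X.V) × (X.V → X.V) |
        ∀ v, ∃ σ ∈ F, ∀ w, X.T.Adj v w → X.c s(p.1 v, p.1 w) = σ (X.c s(v, w))} := by
      rw [Set.setOf_forall]
      refine isClosed_iInter fun v => ?_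
      have : {p : (X.V → X.V) × (X.V → X.V) |
          ∃ σ ∈ F, ∀ w, X.T.Adj v w → X.c s(p.1 v, p.1 w) = σ (X.c s(v, w))} =
          ⋃ σ ∈ (F : Set (Perm (Fin d))), ⋂ w : X.V, {p : (X.V → X.V) × (X.V → X.V) |
            X.T.Adj v w → X.c s(p.1 v, p.1 w) = σ (X.c s(v, w))} := by
        ext p
        simp
      rw [this]
      refine Set.Finite.isClosed_biUnion (Set.toFinite _) fun σ _ => isClosed_iInter fun w => ?_
      exact (isClosed_discrete {q : X.V × X.V |
        X.T.Adj v w → X.c s(q.1, q.2) = σ (X.c s(v, w))}).preimage ((hc1 v).prodMk (hc1 w))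
    exact s1.inter (s2.inter (s3.inter (s4.inter s5)))
  · rintro _ ⟨g, hg, rfl⟩
    refine ⟨fun w _ => ball_map v₀ _ g.2.1 hg _ _ (hN w), fun w _ => ?_⟩
    refine ball_map v₀ _ (g⁻¹).2.1 ?_ _ _ (hN w)
    change ((g : Perm X.V)⁻¹) v₀ = v₀
    rw [Perm.inv_eq_iff_eq]
    exact hg.symm

instance : LocallyCompactSpace (BM X F) := by
  obtain ⟨v₀⟩ := X.isTree.connected.nonempty
  refine (isCompact_stab v₀ (F := F)).locallyCompactSpace_of_mem_nhds_of_group (x := 1) ?_
  exact (isOpen_ev v₀ v₀).mem_nhds rfl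

end Pool.Agent.H516R3.BM
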